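import Pool.Agent.N373.TG.Stm

/-!
# Project TG: broken cherries and the loss (helper953)
-/

set_option autoImplicit false

namespace Pool.Agent.N953.TG

open Finset Pool.Agent.TH440.DC Pool.Agent.N373.TG

section

variable {V : Type} [Fintype V] [DecidableEq V] [Nonempty V] (F : Finset (Finset V)) (t : ℕ)

/-- a broken cherry -/
noncomputable def Ch {ι : Type} [Fintype ι] [DecidableEq ι] (S : ι → V) (a b d : ι) : ℝ :=
  ci F t S {d}ᶜ * ci F t S {a, b}ᶜ * ((1 - ci F t S {a}ᶜ) * (1 - ci F t S {b}ᶜ))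

variable {ι : Type} [Fintype ι] [DecidableEq ι]

omit [DecidableEq V] [Fintype V] [Nonempty V] in
theorem compl_map2 {κ : Type} [Fintype κ] [DecidableEq κ] {σ : κ ≃ ι} (i l : κ) :
    (({σ i, σ l}ᶜ : Finset ι)).map σ.symm.toEmbedding = {i, l}ᶜ := by
  ext x
  simp only [mem_map, mem_compl, mem_insert, mem_singleton, Equiv.coe_toEmbedding]
  constructor
  · rintro ⟨a, ha, rfl⟩ hh
    refine ha ?_
    rcases hh with hh | hh
    · left; rw [← hh, Equiv.apply_symm_apply]
    · right; rw [← hh, Equiv.apply_symm_apply]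
  · intro hx
    refine ⟨σ x, fun hh => hx ?_, by simp⟩
    rcases hh with hh | hh
    · left; exact σ.injective hh
    · right; exact σ.injective hh

theorem av_ch {s : ℕ} (hs : Fintype.card ι = s + 3) {a b d : ι} (hab : a ≠ b) (had : a ≠ d)
    (hbd : b ≠ d) : av (fun S : ι → V => Ch F t S a b d) =
      av (fun S : Fin s ⊕ Fin 3 → V => Ch F t S (Sum.inr 0) (Sum.inr 1) (Sum.inr 2)) := by
  let e : Fin 3 ↪ ι := ⟨![a, b, d], by
    intro p q hpq
    fin_cases p <;> fin_cases q <;> simp_all⟩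
  obtain ⟨σ, hσ⟩ := exists_sum_equiv hs e
  have e0 : e 0 = a := rfl
  have e1 : e 1 = b := rfl
  have e2 : e 2 = d := rfl
  rw [av_reindex σ]
  refine av_congr fun S => ?_
  have a1 := ci_comp F t σ.symm.toEmbedding S {σ (Sum.inr 0)}ᶜ
  have a2 := ci_comp F t σ.symm.toEmbedding S {σ (Sum.inr 1)}ᶜ
  have a3 := ci_comp F t σ.symm.toEmbedding S {σ (Sum.inr 2)}ᶜ
  have a4 := ci_comp F t σ.symm.toEmbedding S {σ (Sum.inr 0), σ (Sum.inr 1)}ᶜ
  rw [compl_map] at a1 a2 a3
  rw [compl_map2] at a4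
  rw [hσ, e0] at a1
  rw [hσ, e1] at a2
  rw [hσ, e2] at a3
  rw [hσ, hσ, e0, e1] at a4
  unfold Ch
  rw [← a1, ← a2, ← a3, ← a4]
  rfl

/-- at most `t` deletions -/
theorem del_le (S : ι → V) (b : ι) (hb : ci F t S {b}ᶜ = 0) :
    ∑ a ∈ univ.erase b, ci F t S {a, b}ᶜ ≤ t := by
  classical
  have h1 : ¬ Cl F t S {b}ᶜ := by
    intro hh
    unfold ci at hb
    rw [if_pos hh] at hb
    norm_num at hb
  unfold Cl at h1
  push Not at h1
  obtain ⟨R, hRb, hR, hM⟩ := h1
  have h2 : ∀ a ∈ univ.erase b, ci F t S {a, b}ᶜ ≤ if a ∈ R then 1 else 0 := by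
    intro a _
    split_ifs with hi
    · exact ci_le_one _ _ _ _
    · unfold ci
      rw [if_neg]
      intro hh
      refine hh R ?_ hR hM
      intro x hx
      rw [mem_compl, mem_insert, mem_singleton]
      rintro (rfl | rfl)
      · exact hi hx
      · have := hRb hx
        simp at this
  refine (Finset.sum_le_sum h2).trans ?_
  rw [Finset.sum_ite_mem, Finset.sum_const, nsmul_eq_mul, mul_one]
  have h3 : (univ.erase b ∩ R).card ≤ R.card := card_le_card inter_subset_right
  rw [hR] at h3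
  exact_mod_cast h3

theorem inner_le (S : ι → V) (h0 : ci F t S univ = 0) (b : ι) :
    ∑ a ∈ univ.erase b, ci F t S {a, b}ᶜ * ((1 - ci F t S {a}ᶜ) * (1 - ci F t S {b}ᶜ)) ≤
      (t : ℝ) - cc F t S := by
  have hcc := cc_nonclique F t h0
  rcases ci_bit F t S {b}ᶜ with hb | hb
  · have h1 : ∀ a ∈ univ.erase b,
        ci F t S {a, b}ᶜ * ((1 - ci F t S {a}ᶜ) * (1 - ci F t S {b}ᶜ)) =
          ci F t S {a, b}ᶜ - ci F t S {a}ᶜ := by
      intro a _
      have h2 : ci F t S {a}ᶜ ≤ ci F t S {a, b}ᶜ := by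
        refine ci_anti F ?_
        intro z hz
        rw [mem_compl, mem_insert, mem_singleton] at hz
        rw [mem_compl, mem_singleton]
        exact fun h => hz (Or.inl h)
      rw [hb]
      rcases ci_bit F t S {a}ᶜ with ha | ha
      · rw [ha]; ring
      · have h3 := ci_le_one F t S {a, b}ᶜ
        have h4 : ci F t S {a, b}ᶜ = 1 := by linarith
        rw [ha, h4]; ring
    rw [Finset.sum_congr rfl h1, Finset.sum_sub_distrib]
    have h2 : ∑ a ∈ univ.erase b, ci F t S {a}ᶜ = cc F t S := by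
      unfold cc
      rw [← Finset.sum_erase_add _ _ (mem_univ b), hb, add_zero]
    rw [h2]
    have := del_le F t S b hb
    linarith
  · rw [hb]
    simp only [sub_self, mul_zero, Finset.sum_const_zero]
    linarith

theorem Ch_le (S : ι → V) (a b d : ι) : Ch F t S a b d = ci F t S {d}ᶜ *
    (ci F t S {a, b}ᶜ * ((1 - ci F t S {a}ᶜ) * (1 - ci F t S {b}ᶜ))) := by
  unfold Ch; ring

/-- the pointwise inequality -/
theorem pw (S : ι → V) :
    ∑ b, ∑ a ∈ univ.erase b, ∑ d ∈ (univ.erase b).erase a, Ch F t S a b d ≤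
      (Fintype.card ι : ℝ) * ((1 - ci F t S univ) * (cc F t S * ((t : ℝ) - cc F t S))) := by
  rcases ci_bit F t S univ with h0 | h1
  · rw [h0, sub_zero, one_mul]
    have hg : ∀ a b, 0 ≤ ci F t S {a, b}ᶜ * ((1 - ci F t S {a}ᶜ) * (1 - ci F t S {b}ᶜ)) := by
      intro a b
      have h1 := ci_le_one F t S {a}ᶜ
      have h2 := ci_le_one F t S {b}ᶜ
      exact mul_nonneg (ci_nonneg _ _ _ _) (mul_nonneg (by linarith) (by linarith))
    have h2 : ∀ a b, ∑ d ∈ (univ.erase b).erase a, Ch F t S a b d ≤ cc F t S *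
        (ci F t S {a, b}ᶜ * ((1 - ci F t S {a}ᶜ) * (1 - ci F t S {b}ᶜ))) := by
      intro a b
      simp only [Ch_le]
      rw [← Finset.sum_mul]
      refine mul_le_mul_of_nonneg_right ?_ (hg a b)
      unfold cc
      exact Finset.sum_le_sum_of_subset_of_nonneg (subset_univ _) fun i _ _ => ci_nonneg _ _ _ _
    have h3 : ∀ b, ∑ a ∈ univ.erase b, ∑ d ∈ (univ.erase b).erase a, Ch F t S a b d ≤
        cc F t S * ((t : ℝ) - cc F t S) := by
      intro b
      refine (Finset.sum_le_sum fun a _ => h2 a b).trans ?_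
      rw [← Finset.mul_sum]
      exact mul_le_mul_of_nonneg_left (inner_le F t S h0 b) (cc_nonneg F t S)
    refine (Finset.sum_le_sum fun b _ => h3 b).trans (le_of_eq ?_)
    rw [Finset.sum_const, card_univ, nsmul_eq_mul]
  · rw [h1, sub_self, zero_mul, mul_zero]
    refine le_of_eq (Finset.sum_eq_zero fun b _ => Finset.sum_eq_zero fun a _ =>
      Finset.sum_eq_zero fun d _ => ?_)
    have h2 : ci F t S {a}ᶜ = 1 := by
      have h3 := ci_anti F (r := t) (S := S) (subset_univ ({a}ᶜ : Finset ι))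
      have h4 := ci_le_one F t S {a}ᶜ
      linarith
    unfold Ch
    rw [h2]
    ring

end

theorem cherry : S_CHERRY := by
  intro V _ _ _ F t j ι _ _ hι a b d hab had hbd
  classical
  -- there are at least three elements
  obtain ⟨s, rfl⟩ : ∃ s, j = s + 1 := by
    have h3 : ({a, b, d} : Finset ι).card = 3 := by
      rw [card_insert_of_notMem, card_insert_of_notMem, card_singleton]
      · simpa using hbd
      · simp only [mem_insert, mem_singleton, not_or]
        exact ⟨hab, had⟩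
    have h4 := card_le_univ ({a, b, d} : Finset ι)
    rw [h3, hι] at h4
    exact ⟨j - 1, by omega⟩
  have hι' : Fintype.card ι = s + 3 := hι
  set A : ℝ := av (fun S : Fin s ⊕ Fin 3 → V => Ch F t S (Sum.inr 0) (Sum.inr 1) (Sum.inr 2))
    with hA
  have e1 : av (fun S : ι → V => ci F t S {d}ᶜ * ci F t S {a, b}ᶜ *
      ((1 - ci F t S {a}ᶜ) * (1 - ci F t S {b}ᶜ))) = A := av_ch F t hι' hab had hbd
  rw [e1]
  -- the average of the pointwise inequality
  have hc : Fintype.card (Fin (s + 1 + 1 + 1)) = s + 3 := Fintype.card_fin _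
  have h1 := av_mono fun S : Fin (s + 1 + 1 + 1) → V => pw F t S
  rw [av_mul_left, av_finset_sum] at h1
  have h2 : ∀ b ∈ (univ : Finset (Fin (s + 1 + 1 + 1))),
      av (fun S : Fin (s + 1 + 1 + 1) → V =>
        ∑ a ∈ univ.erase b, ∑ d ∈ (univ.erase b).erase a, Ch F t S a b d) =
      ((s : ℝ) + 2) * (((s : ℝ) + 1) * A) := by
    intro b _
    rw [av_finset_sum]
    have h3 : ∀ a ∈ univ.erase b, av (fun S : Fin (s + 1 + 1 + 1) → V =>
        ∑ d ∈ (univ.erase b).erase a, Ch F t S a b d) = ((s : ℝ) + 1) * A := by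
      intro a ha
      rw [av_finset_sum]
      have h4 : ∀ d ∈ (univ.erase b).erase a,
          av (fun S : Fin (s + 1 + 1 + 1) → V => Ch F t S a b d) = A := by
        intro d hd
        rw [mem_erase, mem_erase] at hd
        exact av_ch F t hc (Finset.ne_of_mem_erase ha) (Ne.symm hd.1) (Ne.symm hd.2.1)
      rw [Finset.sum_congr rfl h4, Finset.sum_const, card_erase_of_mem ha,
        card_erase_of_mem (mem_univ b), card_univ, hc, nsmul_eq_mul]
      have : s + 3 - 1 - 1 = s + 1 := by omega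
      rw [this]
      push_cast
      ring
    rw [Finset.sum_congr rfl h3, Finset.sum_const, card_erase_of_mem (mem_univ b), card_univ, hc,
      nsmul_eq_mul]
    have : s + 3 - 1 = s + 2 := by omega
    rw [this]
    push_cast
    ring
  rw [Finset.sum_congr rfl h2, Finset.sum_const, card_univ, hc, nsmul_eq_mul] at h1
  have h5 : (av fun S : Fin (s + 1 + 1 + 1) → V =>
      (1 - ci F t S univ) * (cc F t S * ((t : ℝ) - cc F t S))) = ls F t (s + 1 + 1) := rfl
  rw [h5] at h1
  have h6 : (0 : ℝ) < ((s + 3 : ℕ) : ℝ) := by positivity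
  have h7 := le_of_mul_le_mul_left h1 h6
  push_cast
  calc ((s : ℝ) + 1 + 1) * (s + 1) * A = ((s : ℝ) + 2) * (((s : ℝ) + 1) * A) := by ring
    _ ≤ _ := h7

end Pool.Agent.N953.TG
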